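import Pool.Agent.MP_b8b299_co.H56.Lower

set_option autoImplicit false

/-!
An upper bound for the number of `k`-dominating independent sets by revealing the set in a random
order.
-/

namespace Pool.Agent.MP_b8b299_co.H44

open Finset Pool.Agent.MP_b8b299_co.H56

/-- A potential: `f` is below its tangent lines of slope `g ≥ 0` and satisfies a differential
inequality. -/
structure Pot (k : ℕ) (f g : ℝ → ℝ) : Prop where
  tan : ∀ a b, 0 ≤ a → 0 ≤ b → f b ≤ f a + g a * (b - a)
  pos : ∀ a, 0 ≤ a → 0 ≤ g a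
  ode : ∀ a, 0 ≤ a → k * Real.log (1 + a) ≤ f a + (k - 1) * (a * g a)

/-- the cost of a set with `m` elements and `r` other vertices -/
noncomputable def cost (k : ℕ) (f : ℝ → ℝ) (m r : ℕ) : ℝ := m / k * f (r / m)

variable {V : Type} [DecidableEq V] {k : ℕ} {G : SimpleGraph V} [DecidableRel G.Adj]

/-- the vertices that survive the choice of `x` -/
def rest (G : SimpleGraph V) [DecidableRel G.Adj] (W : Finset V) (x : V) : Finset V :=
  {v ∈ W | v ≠ x ∧ ¬G.Adj x v}

theorem erase_mem {W D : Finset V} {x : V} (hD : D ∈ dis k G W) (hx : x ∈ D) :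
    D.erase x ∈ dis k G (rest G W x) := by
  obtain ⟨h1, h2, h3⟩ := mem_dis.1 hD
  refine mem_dis.2 ⟨fun y hy => ?_, fun u hu v hv => h2 u (mem_of_mem_erase hu) v
    (mem_of_mem_erase hv), fun v hv hv' => ?_⟩
  · obtain ⟨y1, y2⟩ := mem_erase.1 hy
    exact mem_filter.2 ⟨h1 y2, y1, h2 x hx y y2⟩
  · obtain ⟨v1, v2, v3⟩ := mem_filter.1 hv
    refine (h3 v v1 fun g => hv' (mem_erase.2 ⟨v2, g⟩)).trans (card_le_card fun u hu => ?_)
    obtain ⟨u1, u2⟩ := mem_nb.1 hu
    exact mem_nb.2 ⟨mem_erase.2 ⟨fun e => v3 (e ▸ u2.symm), u1⟩, u2⟩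

theorem rest_sdiff {W D : Finset V} {x : V} (hx : x ∈ D) :
    rest G W x \ D.erase x = {v ∈ W \ D | ¬G.Adj x v} := by
  ext v
  simp only [rest, mem_sdiff, mem_filter, mem_erase, not_and]
  constructor
  · rintro ⟨⟨h1, h2, h3⟩, h4⟩
    exact ⟨⟨h1, h4 h2⟩, h3⟩
  · rintro ⟨⟨h1, h2⟩, h3⟩
    exact ⟨⟨h1, fun e => h2 (e ▸ hx), h3⟩, fun _ => h2⟩

theorem sum_rest {W D : Finset V} (hD : D ∈ dis k G W) :
    ∑ x ∈ D, (#(rest G W x \ D.erase x) : ℝ) ≤ #(W \ D) * ((#D : ℝ) - k) := by
  obtain ⟨-, -, h3⟩ := mem_dis.1 hD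
  rw [sum_congr rfl fun x hx => by rw [rest_sdiff hx, card_filter]]
  push_cast
  rw [sum_comm, ← nsmul_eq_mul]
  refine sum_le_card_nsmul _ _ _ fun v hv => ?_
  have h4 : (k : ℝ) ≤ #(nb G D v) := by exact_mod_cast h3 v (mem_sdiff.1 hv).1 (mem_sdiff.1 hv).2
  have h5 : (#(nb G D v) : ℝ) + ∑ x ∈ D, (if ¬G.Adj x v then (1 : ℝ) else 0) = #D := by
    rw [nb, card_filter, card_eq_sum_ones D]
    push_cast
    rw [← sum_add_distrib]
    refine sum_congr rfl fun x _ => ?_
    by_cases h : G.Adj x v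
    · simp [h, h.symm]
    · simp [h, mt SimpleGraph.Adj.symm h]
  linarith

theorem cost_le {f g : ℝ → ℝ} (P : Pot k f g) (hk : 0 < k) {a : ℝ} (ha : 0 ≤ a) (m r : ℕ) :
    cost k f m r ≤ m / k * (f a - a * g a) + g a / k * r := by
  have k0 : (0 : ℝ) < k := by exact_mod_cast hk
  rcases Nat.eq_zero_or_pos m with rfl | hm
  · have := P.pos a ha
    simp only [cost, Nat.cast_zero, zero_div, zero_mul, zero_add]
    positivity
  · have m0 : (0 : ℝ) < m := by exact_mod_cast hm
    have h := P.tan a (r / m) ha (by positivity)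
    calc cost k f m r ≤ m / k * (f a + g a * (r / m - a)) :=
          mul_le_mul_of_nonneg_left h (by positivity)
      _ = _ := by field_simp; ring

theorem step {f g : ℝ → ℝ} (P : Pot k f g) (hk : 0 < k) {W D : Finset V} (hD : D ∈ dis k G W)
    (hne : D.Nonempty) : #W * Real.exp (-cost k f #D #(W \ D)) ≤
      ∑ x ∈ D, Real.exp (-cost k f #(D.erase x) #(rest G W x \ D.erase x)) := by
  have k0 : (0 : ℝ) < k := by exact_mod_cast hk
  have m0 : (0 : ℝ) < #D := by exact_mod_cast hne.card_pos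
  have hW : (#W : ℝ) = #D + #(W \ D) := by
    rw [← card_sdiff_add_card_eq_card (mem_dis.1 hD).1]; push_cast; ring
  set m : ℝ := (#D : ℝ) with hm
  set r : ℝ := (#(W \ D) : ℝ) with hr
  have r0 : 0 ≤ r := by positivity
  set a := r / m with ha
  have a0 : 0 ≤ a := by positivity
  have g0 := P.pos a a0
  set T := m / k * f a - Real.log (1 + a) with hT
  have h1 : ∀ x ∈ D, Real.exp (-T) * (1 + T - (m - 1) / k * (f a - a * g a) -
      g a / k * #(rest G W x \ D.erase x)) ≤
      Real.exp (-cost k f #(D.erase x) #(rest G W x \ D.erase x)) := by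
    intro x hx
    have h2 := cost_le P hk a0 #(D.erase x) #(rest G W x \ D.erase x)
    have h3 : (#(D.erase x) : ℝ) = m - 1 := by
      rw [card_erase_of_mem hx, Nat.cast_sub hne.card_pos, Nat.cast_one]
    rw [h3] at h2
    have h4 := Real.add_one_le_exp (T - cost k f #(D.erase x) #(rest G W x \ D.erase x))
    rw [show -cost k f #(D.erase x) #(rest G W x \ D.erase x) =
      -T + (T - cost k f #(D.erase x) #(rest G W x \ D.erase x)) by ring, Real.exp_add]
    exact mul_le_mul_of_nonneg_left (by linarith) (Real.exp_pos _).le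
  refine le_trans ?_ (sum_le_sum h1)
  rw [← mul_sum, sum_sub_distrib, sum_const, ← mul_sum, nsmul_eq_mul, ← hm]
  have h5 : #W * Real.exp (-cost k f #D #(W \ D)) = Real.exp (-T) * m := by
    rw [hT, neg_sub, Real.exp_sub, Real.exp_log (by linarith), hW, Real.exp_neg, cost, ← hm, ← hr,
      ← ha, ha]
    field_simp
  rw [h5]
  refine mul_le_mul_of_nonneg_left ?_ (Real.exp_pos _).le
  have h6 := mul_le_mul_of_nonneg_left (sum_rest hD) (show 0 ≤ g a / k by positivity)
  rw [← hm, ← hr] at h6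
  have h7 : r = a * m := by rw [ha]; field_simp
  have h8 : 0 ≤ m / k * (f a + (k - 1) * (a * g a) - k * Real.log (1 + a)) :=
    mul_nonneg (by positivity) (sub_nonneg.2 (P.ode a a0))
  have h9 : m * (1 + T - (m - 1) / k * (f a - a * g a)) - g a / k * (r * (m - k)) =
      m + m / k * (f a + (k - 1) * (a * g a) - k * Real.log (1 + a)) := by
    rw [hT, h7]; field_simp; ring
  linarith

theorem kraft {f g : ℝ → ℝ} (P : Pot k f g) (hk : 0 < k) (W : Finset V) :
    ∑ D ∈ dis k G W, Real.exp (-cost k f #D #(W \ D)) ≤ 1 := by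
  induction W using Finset.strongInduction with
  | H W ih =>
  rcases W.eq_empty_or_nonempty with rfl | hW
  · have : dis k G (∅ : Finset V) ⊆ {∅} := fun D hD =>
      mem_singleton.2 (subset_empty.1 (mem_dis.1 hD).1)
    refine (sum_le_sum_of_subset_of_nonneg this fun _ _ _ => (Real.exp_pos _).le).trans ?_
    simp [cost]
  have w0 : (0 : ℝ) < #W := by exact_mod_cast hW.card_pos
  refine le_of_mul_le_mul_left ?_ w0
  rw [mul_sum]
  have hne : ∀ D ∈ dis k G W, D.Nonempty := fun D hD => by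
    rw [nonempty_iff_ne_empty]
    rintro rfl
    obtain ⟨v, hv⟩ := hW
    have := (mem_dis.1 hD).2.2 v hv (notMem_empty v)
    simp [nb] at this
    omega
  refine (sum_le_sum fun D hD => step P hk hD (hne D hD)).trans ?_
  rw [sum_comm' (t' := W) (s' := fun x => {D ∈ dis k G W | x ∈ D}) (fun D x => by
    simp only [mem_filter]
    exact ⟨fun h => ⟨h, (mem_dis.1 h.1).1 h.2⟩, fun h => h.1⟩), mul_one, card_eq_sum_ones W]
  push_cast
  refine sum_le_sum fun x hx => le_trans ?_ (ih (rest G W x) ⟨filter_subset _ _, fun h =>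
    (mem_filter.1 (h hx)).2.1 rfl⟩)
  rw [← sum_image (s := {D ∈ dis k G W | x ∈ D}) (g := fun D => D.erase x)
    (f := fun E => Real.exp (-cost k f #E #(rest G W x \ E))) fun D hD E hE h => by
      rw [← insert_erase (mem_filter.1 hD).2, ← insert_erase (mem_filter.1 hE).2]
      exact congrArg (insert x) h]
  refine sum_le_sum_of_subset_of_nonneg (fun E hE => ?_) fun _ _ _ => (Real.exp_pos _).le
  obtain ⟨D, hD, rfl⟩ := mem_image.1 hE
  exact erase_mem (mem_filter.1 hD).1 (mem_filter.1 hD).2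

theorem card_le {f g : ℝ → ℝ} (P : Pot k f g) (hk : 0 < k) {c : ℝ} (c0 : 0 ≤ c)
    (hc : ∀ a, 0 ≤ a → f a ≤ k * c * (1 + a)) (W : Finset V) :
    (#(dis k G W) : ℝ) ≤ Real.exp (c * #W) := by
  have k0 : (0 : ℝ) < k := by exact_mod_cast hk
  have h1 : ∀ D ∈ dis k G W, Real.exp (-(c * #W)) ≤ Real.exp (-cost k f #D #(W \ D)) := by
    intro D hD
    refine Real.exp_le_exp.2 (neg_le_neg ?_)
    have hW : (#W : ℝ) = #D + #(W \ D) := by
      rw [← card_sdiff_add_card_eq_card (mem_dis.1 hD).1]; push_cast; ring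
    rcases Nat.eq_zero_or_pos #D with h0 | hm
    · rw [h0]
      simp only [cost, Nat.cast_zero, zero_div, zero_mul]
      positivity
    · have m0 : (0 : ℝ) < #D := by exact_mod_cast hm
      calc cost k f #D #(W \ D) ≤ #D / k * (k * c * (1 + #(W \ D) / #D)) :=
            mul_le_mul_of_nonneg_left (hc _ (by positivity)) (by positivity)
        _ = _ := by rw [hW]; field_simp
  have h2 := (card_nsmul_le_sum _ _ _ h1).trans (kraft P hk W)
  rw [nsmul_eq_mul, Real.exp_neg, ← div_eq_mul_inv, div_le_one (Real.exp_pos _)] at h2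
  exact h2

theorem mi_le {f g : ℝ → ℝ} (P : Pot k f g) (hk : 0 < k) {c : ℝ} (c0 : 0 ≤ c)
    (hc : ∀ a, 0 ≤ a → f a ≤ k * c * (1 + a)) (n : ℕ) : (mi k n : ℝ) ≤ Real.exp (c * n) := by
  classical
  obtain ⟨G, hG⟩ := exists_eq_ciSup_of_finite
    (f := fun G : SimpleGraph (Fin n) => {D | IsDIS k G D}.ncard)
  have h := card_le (G := G) P hk c0 hc univ
  rw [card_univ, Fintype.card_fin] at h
  refine le_trans ?_ h
  rw [mi, ← hG, ← Set.ncard_coe_finset]
  refine Nat.cast_le.2 (Set.ncard_le_ncard_of_injOn (fun D => D.toFinset) (fun D hD => ?_)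
    fun D _ E _ h => Set.toFinset_inj.1 h)
  refine mem_coe.2 (mem_dis.2 ⟨subset_univ _, by simpa using hD.1, fun v _ hv => ?_⟩)
  refine (hD.2 v (by simpa using hv)).trans_eq ?_
  rw [← Set.ncard_coe_finset]
  congr 1
  ext u
  simp [nb]

end Pool.Agent.MP_b8b299_co.H44
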