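import Pool.Agent.MP_b8b299_co.H44.Kraft

set_option autoImplicit false

/-!
Explicit potentials for the random order bound.
-/

namespace Pool.Agent.MP_b8b299_co.H44

open Real Pool.Agent.MP_b8b299_co.H56

theorem log_tan {t a b : ℝ} (ht : 0 ≤ t) (ha : 0 ≤ a) (hb : 0 ≤ b) :
    log (1 + t * b) ≤ log (1 + t * a) + t / (1 + t * a) * (b - a) := by
  have h1 : 0 < 1 + t * a := by positivity
  have h2 : 0 < 1 + t * b := by positivity
  have h := log_le_sub_one_of_pos (div_pos h2 h1)
  rw [log_div h2.ne' h1.ne'] at h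
  have e : (1 + t * b) / (1 + t * a) - 1 = t / (1 + t * a) * (b - a) := by field_simp; ring
  linarith

theorem nonneg_of_deriv {h d : ℝ → ℝ} (hd : ∀ a, 0 ≤ a → HasDerivAt h (d a) a)
    (d0 : ∀ a, 0 ≤ a → 0 ≤ d a) (h0 : h 0 = 0) {a : ℝ} (ha : 0 ≤ a) : 0 ≤ h a := by
  have m : MonotoneOn h (Set.Ici 0) := by
    refine monotoneOn_of_deriv_nonneg (convex_Ici 0)
      (fun x hx => (hd x hx).continuousAt.continuousWithinAt)
      (fun x hx => (hd x (interior_subset hx)).differentiableAt.differentiableWithinAt)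
      fun x hx => ?_
    rw [(hd x (interior_subset hx)).deriv]
    exact d0 x (interior_subset hx)
  exact h0 ▸ m Set.self_mem_Ici ha ha

/-- a potential with three nodes -/
noncomputable def f3 (p u t v a : ℝ) : ℝ := p * a + u * log (1 + t * a) + v * log (1 + a)

/-- its derivative -/
noncomputable def g3 (p u t v a : ℝ) : ℝ := p + u * (t / (1 + t * a)) + v * (1 / (1 + a))

theorem pot3 {k : ℕ} {p u t v : ℝ} (hp : 0 ≤ p) (hu : 0 ≤ u) (ht : 0 ≤ t) (hv : 0 ≤ v)
    (hD : ∀ a, 0 ≤ a → 0 ≤ k * g3 p u t v a -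
      (k - 1) * (a * (u * (t / (1 + t * a)) ^ 2 + v * (1 / (1 + a)) ^ 2)) - k * (1 / (1 + a))) :
    Pot k (f3 p u t v) (g3 p u t v) where
  tan a b ha hb := by
    have h1 := mul_le_mul_of_nonneg_left (log_tan ht ha hb) hu
    have h2 := mul_le_mul_of_nonneg_left (log_tan zero_le_one ha hb) hv
    simp only [one_mul] at h2
    simp only [f3, g3]
    linarith
  pos a ha := by unfold g3; positivity
  ode a ha := by
    have key : ∀ a : ℝ, 0 ≤ a → HasDerivAt
        (fun a => f3 p u t v a + (k - 1) * (a * g3 p u t v a) - k * log (1 + a))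
        (k * g3 p u t v a - (k - 1) * (a * (u * (t / (1 + t * a)) ^ 2 + v * (1 / (1 + a)) ^ 2)) -
          k * (1 / (1 + a))) a := by
      intro a ha
      have h1 : 1 + t * a ≠ 0 := by positivity
      have h2 : 1 + a ≠ 0 := by positivity
      have i0 := hasDerivAt_id' a
      have l1 : HasDerivAt (fun a => 1 + t * a) t a := by
        simpa using (i0.const_mul t).const_add 1
      have l2 : HasDerivAt (fun a : ℝ => 1 + a) 1 a := i0.const_add 1
      have hf := ((i0.const_mul p).add ((l1.log h1).const_mul u)).add ((l2.log h2).const_mul v)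
      have hg := ((((hasDerivAt_const a t).div l1 h1).const_mul u).const_add p).add
        (((hasDerivAt_const a (1 : ℝ)).div l2 h2).const_mul v)
      refine ((hf.add ((i0.mul hg).const_mul ((k : ℝ) - 1))).sub
        ((l2.log h2).const_mul (k : ℝ))).congr_deriv ?_
      simp only [g3, Pi.add_apply, Pi.div_apply]
      field_simp
      ring
    have := nonneg_of_deriv key hD (by simp [f3]) ha
    linarith

theorem potAll (k : ℕ) : Pot k (f3 (1 / 6) (4 / 3) (1 / 2) (1 / 6))
    (g3 (1 / 6) (4 / 3) (1 / 2) (1 / 6)) := by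
  refine pot3 (by norm_num) (by norm_num) (by norm_num) (by norm_num) fun a ha => ?_
  have e : k * g3 (1 / 6) (4 / 3) (1 / 2) (1 / 6) a - (k - 1) * (a * (4 / 3 *
      (1 / 2 / (1 + 1 / 2 * a)) ^ 2 + 1 / 6 * (1 / (1 + a)) ^ 2)) - k * (1 / (1 + a)) =
      k * (a ^ 4 / (6 * (1 + a) ^ 2 * (2 + a) ^ 2)) +
        a * (4 / 3 * (1 / 2 / (1 + 1 / 2 * a)) ^ 2 + 1 / 6 * (1 / (1 + a)) ^ 2) := by
    unfold g3
    field_simp
    ring
  rw [e]
  positivity

theorem potThree : Pot 3 (f3 (16 / 175) (2187 / 1750) (5 / 9) (3 / 14))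
    (g3 (16 / 175) (2187 / 1750) (5 / 9) (3 / 14)) := by
  refine pot3 (by norm_num) (by norm_num) (by norm_num) (by norm_num) fun a ha => ?_
  have e : (3 : ℕ) * g3 (16 / 175) (2187 / 1750) (5 / 9) (3 / 14) a - ((3 : ℕ) - 1) *
      (a * (2187 / 1750 * (5 / 9 / (1 + 5 / 9 * a)) ^ 2 + 3 / 14 * (1 / (1 + a)) ^ 2)) -
      (3 : ℕ) * (1 / (1 + a)) = 16 / 189 * a ^ 4 / ((1 + 5 / 9 * a) ^ 2 * (1 + a) ^ 2) := by
    unfold g3
    push_cast
    field_simp
    ring
  rw [e]
  positivity

theorem log_le_of {x y : ℝ} (hx : 0 < x) (hy : 0 ≤ y)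
    (h : x ≤ ∑ i ∈ Finset.range 6, y ^ i / i.factorial) : log x ≤ y :=
  (log_le_iff_le_exp hx).2 (h.trans (sum_le_exp_of_nonneg hy 6))

theorem f3_all {a : ℝ} (ha : 0 ≤ a) :
    f3 (1 / 6) (4 / 3) (1 / 2) (1 / 6) a ≤ 49 / 100 * (1 + a) := by
  have h := (potAll 0).tan (14 / 5) a (by norm_num) ha
  have h1 : log (6 / 5) ≤ 73 / 400 := log_le_of (by norm_num) (by norm_num)
    (by norm_num [Finset.sum_range_succ, Nat.factorial])
  have h2 : log (19 / 20) ≤ 19 / 20 - 1 := log_le_sub_one_of_pos (by norm_num)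
  have e1 : log (1 + 1 / 2 * (14 / 5)) = log 2 + log (6 / 5) := by
    rw [← log_mul (by norm_num) (by norm_num)]; norm_num
  have e2 : log (1 + 14 / 5) = log 2 + (log 2 + log (19 / 20)) := by
    rw [← log_mul (by norm_num) (by norm_num), ← log_mul (by norm_num) (by norm_num)]; norm_num
  have h3 := log_two_lt_d9
  conv at h => rhs; simp only [f3, g3, e1, e2]
  norm_num at h h3 ⊢
  linarith

theorem f3_three {a : ℝ} (ha : 0 ≤ a) :
    f3 (16 / 175) (2187 / 1750) (5 / 9) (3 / 14) a ≤ 57 / 125 * (1 + a) := by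
  have h := potThree.tan (12 / 5) a (by norm_num) ha
  have h1 : log (7 / 6) ≤ 771 / 5000 := log_le_of (by norm_num) (by norm_num)
    (by norm_num [Finset.sum_range_succ, Nat.factorial])
  have h2 : log (17 / 10) ≤ 531 / 1000 := log_le_of (by norm_num) (by norm_num)
    (by norm_num [Finset.sum_range_succ, Nat.factorial])
  have e1 : log (1 + 5 / 9 * (12 / 5)) = log 2 + log (7 / 6) := by
    rw [← log_mul (by norm_num) (by norm_num)]; norm_num
  have e2 : log (1 + 12 / 5) = log 2 + log (17 / 10) := by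
    rw [← log_mul (by norm_num) (by norm_num)]; norm_num
  have h3 := log_two_lt_d9
  conv at h => rhs; simp only [f3, g3, e1, e2]
  norm_num at h h3 ⊢
  linarith

theorem potInt (j : ℕ) : Pot (j + 1)
    (fun a => (j + 1 : ℕ) * ∫ x in (0 : ℝ)..1, log (1 + x ^ j * a))
    fun a => (j + 1 : ℕ) * ∫ x in (0 : ℝ)..1, x ^ j / (1 + x ^ j * a) := by
  have ne : ∀ a : ℝ, 0 ≤ a → ∀ x ∈ Set.uIcc (0 : ℝ) 1, 1 + x ^ j * a ≠ 0 := by
    intro a ha x hx
    rw [Set.uIcc_of_le zero_le_one] at hx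
    have := hx.1
    positivity
  have i1 : ∀ a : ℝ, 0 ≤ a →
      IntervalIntegrable (fun x : ℝ => log (1 + x ^ j * a)) MeasureTheory.volume 0 1 :=
    fun a ha => (ContinuousOn.log (by fun_prop) (ne a ha)).intervalIntegrable
  have i2 : ∀ a : ℝ, 0 ≤ a →
      IntervalIntegrable (fun x : ℝ => x ^ j / (1 + x ^ j * a)) MeasureTheory.volume 0 1 :=
    fun a ha => (ContinuousOn.div (by fun_prop) (by fun_prop) (ne a ha)).intervalIntegrable
  refine ⟨fun a b ha hb => ?_, fun a ha => ?_, fun a ha => ?_⟩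
  · have h := intervalIntegral.integral_mono_on zero_le_one (i1 b hb)
      ((i1 a ha).add ((i2 a ha).mul_const (b - a))) fun x hx => log_tan (pow_nonneg hx.1 j) ha hb
    rw [intervalIntegral.integral_add (i1 a ha) ((i2 a ha).mul_const _),
      intervalIntegral.integral_mul_const] at h
    have := mul_le_mul_of_nonneg_left h (Nat.cast_nonneg (α := ℝ) (j + 1))
    linarith
  · refine mul_nonneg (Nat.cast_nonneg _)
      (intervalIntegral.integral_nonneg zero_le_one fun x hx => ?_)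
    have := hx.1
    positivity
  · have key : ∀ x ∈ Set.uIcc (0 : ℝ) 1, HasDerivAt (fun x : ℝ => x * log (1 + x ^ j * a))
        (log (1 + x ^ j * a) + j * a * (x ^ j / (1 + x ^ j * a))) x := by
      intro x hx
      refine ((hasDerivAt_id' x).mul ((((hasDerivAt_pow j x).mul_const a).const_add 1).log
        (ne a ha x hx))).congr_deriv ?_
      rcases j with _ | j
      · simp
      · simp only [Nat.add_sub_cancel, pow_succ]
        ring
    have h := intervalIntegral.integral_eq_sub_of_hasDerivAt key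
      ((i1 a ha).add ((i2 a ha).const_mul _))
    rw [intervalIntegral.integral_add (i1 a ha) ((i2 a ha).const_mul _),
      intervalIntegral.integral_const_mul] at h
    simp only [one_pow, one_mul, zero_mul, sub_zero] at h
    rw [← h]
    push_cast
    linarith

theorem mi_le_int {k : ℕ} (hk : 0 < k) {c : ℝ} (c0 : 0 ≤ c)
    (hc : ∀ a : ℝ, 0 ≤ a → ∫ x in (0 : ℝ)..1, log (1 + x ^ (k - 1) * a) ≤ c * (1 + a)) (n : ℕ) :
    (mi k n : ℝ) ≤ exp (c * n) := by
  obtain ⟨j, rfl⟩ : ∃ j, k = j + 1 := ⟨k - 1, by omega⟩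
  refine mi_le (potInt j) hk c0 (fun a ha => ?_) n
  rw [mul_assoc]
  exact mul_le_mul_of_nonneg_left (hc a ha) (Nat.cast_nonneg _)

theorem mi_le_all {k : ℕ} (hk : 0 < k) (n : ℕ) : (mi k n : ℝ) ≤ exp (49 / (100 * k) * n) := by
  have k0 : (0 : ℝ) < k := by exact_mod_cast hk
  refine mi_le (potAll k) hk (by positivity) (fun a ha => (f3_all ha).trans_eq ?_) n
  field_simp

theorem mi_le_three (n : ℕ) : (mi 3 n : ℝ) ≤ exp (19 / 125 * n) :=
  mi_le potThree (by norm_num) (by norm_num) (fun a ha => (f3_three ha).trans_eq (by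
    push_cast; ring)) n

end Pool.Agent.MP_b8b299_co.H44
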